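import Mathlib
import Pool.Agent.Y266.AC.Main

/-!
For all finite-dimensional complex Hilbert spaces `N`, `M` with `0 < dim N ≤ dim M` there is
`χ` in `B_a(M, N)` and in `B⁰_Sz(M, N)` for which condition (4) fails.
-/

namespace Pool.Agent.Results.MP_0d9f0f_an.HankelResolventCounterexample

open Pool.Agent.Y266.AC

theorem result {N M : Type} [NormedAddCommGroup N] [InnerProductSpace ℂ N] [FiniteDimensional ℂ N]
    [NormedAddCommGroup M] [InnerProductSpace ℂ M] [FiniteDimensional ℂ M]
    (hN : 0 < Module.finrank ℂ N) (hNM : Module.finrank ℂ N ≤ Module.finrank ℂ M) :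
    ∃ χ : ℂ → (M →L[ℂ] N), ClassBa χ ∧ ClassBSz χ ∧ ¬ Cond4 χ :=
  main hN hNM

end Pool.Agent.Results.MP_0d9f0f_an.HankelResolventCounterexample
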